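import Mathlib
import Pool.Agent.H81.ConstWidth

namespace Pool.Agent.Results.MP_04ec84_gt.MidpointDiam

/-- The width of `K` in the direction of the unit vector `u`: the distance between the two
supporting hyperplanes of `K` orthogonal to `u`. -/
noncomputable def width {d : ℕ} (K : Set (EuclideanSpace ℝ (Fin d)))
    (u : EuclideanSpace ℝ (Fin d)) : ℝ :=
  sSup ((fun x => inner ℝ u x) '' K) - sInf ((fun x => inner ℝ u x) '' K)

/-- `K` is a compact convex set of constant width `1`. -/
def IsConstantWidthOne {d : ℕ} (K : Set (EuclideanSpace ℝ (Fin d))) : Prop :=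
  IsCompact K ∧ Convex ℝ K ∧ ∀ u : EuclideanSpace ℝ (Fin d), ‖u‖ = 1 → width K u = 1

/-- The set `M(K)` of midpoints of the diametral chords of `K`. -/
def midpointSet {d : ℕ} (K : Set (EuclideanSpace ℝ (Fin d))) : Set (EuclideanSpace ℝ (Fin d)) :=
  {m | ∃ x ∈ K, ∃ y ∈ K, dist x y = 1 ∧ m = midpoint ℝ x y}

/-- The largest value of `diam M(K)` over sets of constant width `1` in `ℝ^d` is attained, and it
is `1/2` for `d = 2` and `1/√2` for `d ≥ 3`. -/
theorem result (d : ℕ) (hd : 2 ≤ d) :
    IsGreatest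
      {t : ℝ | ∃ K : Set (EuclideanSpace ℝ (Fin d)),
        IsConstantWidthOne K ∧ t = Metric.diam (midpointSet K)}
      (if d = 2 then 1 / 2 else 1 / Real.sqrt 2) :=
  Pool.Agent.H81.ConstWidth.main d hd

end Pool.Agent.Results.MP_04ec84_gt.MidpointDiam
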